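import Mathlib
import Pool.Agent.Q35.EO.Stm
import Pool.Agent.Q35.EO.Stm2

/-!
Project EOW (MP_1acd66_nt): the asymptotic formula of Manin for all adelic anticanonical heights on
smooth complete intersections of `k` divisors of type `(1, ..., 1)` in products of `s` projective spaces
over number fields.

The numbers of points of project EO are replaced by sums of weights `W P`, `0 ≤ W ≤ 1`, which depend
only on the classes of the vectors `P i` in the projective spaces and are Lipschitz functions for the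
`v`-adic distances, `v` an infinite place or in a finite set `S` of finite places.
-/

set_option autoImplicit false

namespace Pool.Agent.Q35.EOW

open Finset Function NumberField
open Pool.Agent.Q35.MM (bx dg Pts)
open Pool.Agent.Q35.SM (Cof Vs Var Pol ev pv MH Opn Cut Twr UU Smth FF)
open Pool.Agent.Q35.EO (S1g bxg Shp nug FFg YU hh S_LAT S_FIB S_UN S_GG S_TAU S_HYPR S_MOBK S_HYP)

section

variable {K : Type} [Field K] [NumberField K]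

/-- The maximum norm of a vector for the absolute value `v`. -/
noncomputable def nv {m : ℕ} (v : K → ℝ) (x : Fin m → K) : ℝ := ⨆ a, v (x a)

/-- The sum of the relative distances `|x - y|_v / |x|_v` over all infinite places and the finite places
in `S`. -/
noncomputable def dS (S : Finset (FinitePlace K)) {m : ℕ} (x y : Fin m → K) : ℝ :=
  ∑ v : InfinitePlace K, nv v (x - y) / nv v x + ∑ v ∈ S, nv v (x - y) / nv v x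

/-- A weight on one projective space. -/
structure LipV (S : Finset (FinitePlace K)) (Λ : ℝ) {m : ℕ} (w : (Fin m → K) → ℝ) : Prop where
  nonneg : ∀ x, 0 ≤ w x
  le_one : ∀ x, w x ≤ 1
  smul : ∀ (a : K) (x : Fin m → K), a ≠ 0 → w (a • x) = w x
  lip : ∀ x y : Fin m → K, x ≠ 0 → y ≠ 0 → |w x - w y| ≤ Λ * dS S x y

/-- A weight on a product of projective spaces. -/
structure LipW (S : Finset (FinitePlace K)) (Λ : ℝ) {ι : Type} [DecidableEq ι] {n : ι → ℕ}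
    (W : Vs K n → ℝ) : Prop where
  nonneg : ∀ P, 0 ≤ W P
  le_one : ∀ P, W P ≤ 1
  smul : ∀ (a : ι → K) (P : Vs K n), (∀ i, a i ≠ 0) → W (fun i => a i • P i) = W P
  lip : ∀ (P : Vs K n) (i : ι) (y : Fin (n i + 1) → K), P i ≠ 0 → y ≠ 0 →
    |W P - W (update P i y)| ≤ Λ * dS S (P i) y

open Classical in
/-- The sum of the weights of the points of `V` in the box. -/
noncomputable def nuw (I : Ideal (𝓞 K)) (t : (K →+* ℂ) → ℝ) (N : ℕ) (V : Submodule K (Fin N → K))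
    (w : (Fin N → K) → ℝ) (B : ℕ) : ℝ :=
  ∑ x ∈ (bxg K I t N B).filter fun x => x ∈ V, w x

open Classical in
/-- The number of the points of `V` in the box which are small for a place. -/
noncomputable def nuthin (S : Finset (FinitePlace K)) (I : Ideal (𝓞 K)) (t : (K →+* ℂ) → ℝ) (N : ℕ)
    (V : Submodule K (Fin N → K)) (κ : ℝ) (B : ℕ) : ℕ :=
  ((bxg K I t N B).filter fun x => x ∈ V ∧
    ((∃ φ : K →+* ℂ, ∀ a, ‖φ (x a)‖ ≤ κ * B) ∨ ∃ v ∈ S, ∀ a, v (x a) ≤ κ)).card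

variable {ι : Type} [Fintype ι] [DecidableEq ι] {n : ι → ℕ}

open Classical in
/-- The sum of the weights of the vectors in the boxes with the property `U`. -/
noncomputable def cntw (U : Vs K n → Prop) (W : Vs K n → ℝ) (I : ι → Ideal (𝓞 K))
    (t : ι → (K →+* ℂ) → ℝ) (b : ι → ℕ) : ℝ :=
  ∑ P ∈ (Fintype.piFinset fun l => bxg K (I l) (t l) (n l + 1) (b l)).filter (fun P => U P), W P

end

/-- The mean `G` of order `q`, with weights `w`. -/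
noncomputable def GGw {ι : Type} [Fintype ι] {Y : Type} (S : Set Y) (w : Y → ℝ) (h : ι → Y → ℝ)
    (q d : ℕ) (b : ι → ℕ) : ℝ :=
  ∑ᶠ y ∈ {y ∈ S | ∀ l, h l y ≤ (b l : ℝ) ^ d}, w y * ∏ l, Real.log ((b l : ℝ) ^ d / h l y) ^ q

/-- EOW-1 (THL): few points of `V` in a box are small for some place. -/
def S_THL : Prop :=
  ∀ (K : Type) [Field K] [NumberField K] (N r : ℕ) (I : Ideal (𝓞 K)) (c0 : ℝ)
    (S : Finset (FinitePlace K)), I ≠ ⊥ → 1 ≤ c0 → 1 ≤ r →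
    ∃ C η : ℝ, 1 ≤ C ∧ 0 < η ∧ ∀ t : (K →+* ℂ) → ℝ, Shp c0 t →
    ∀ (V : Submodule K (Fin N → K)) (σ B : ℕ) (κ : ℝ), Module.finrank K V = r → 1 ≤ σ →
      V ≤ Submodule.span K {x : Fin N → K | x ∈ V ∧ x ∈ bx K N σ} → 0 < κ → κ ≤ 1 →
      C * (σ : ℝ) ≤ κ * B →
      (nuthin S I t N V κ B : ℝ) ≤ C * κ ^ η * nug K I t N V B

/-- EOW-2 (LATW): sums of weights over lattice points in boxes. -/
def S_LATW : Prop :=
  ∀ (K : Type) [Field K] [NumberField K] (N r : ℕ) (I : Ideal (𝓞 K)) (c0 : ℝ)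
    (S : Finset (FinitePlace K)) (Λ : ℝ), I ≠ ⊥ → 1 ≤ c0 → 1 ≤ r → 0 ≤ Λ →
    ∃ C η : ℝ, 1 ≤ C ∧ 0 < η ∧ ∀ t : (K →+* ℂ) → ℝ, Shp c0 t →
    ∀ w : (Fin N → K) → ℝ, LipV S Λ w →
    ∀ (V : Submodule K (Fin N → K)) (σ ρ B : ℕ), Module.finrank K V = r → 1 ≤ σ →
      V ≤ Submodule.span K {x : Fin N → K | x ∈ V ∧ x ∈ bx K N σ} → C * (σ : ℝ) ≤ ρ → ρ ≤ B →
      |nuw I t N V w B * (ρ : ℝ) ^ (dg K * r) - nuw I t N V w ρ * (B : ℝ) ^ (dg K * r)| ≤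
        C * ((σ : ℝ) / ρ) ^ η * ((nug K I t N V ρ : ℝ) * (B : ℝ) ^ (dg K * r))

/-- EOW-3 (STW): the sharp step for weights. -/
def S_STW : Prop :=
  ∀ (K : Type) [Field K] [NumberField K] (ι : Type) [Fintype ι] [DecidableEq ι] (n : ι → ℕ)
    (k r : ℕ) (c : Fin k → Cof K n) (G : Finset ι → Finset (Pol K n)) (I : ι → Ideal (𝓞 K))
    (c0 : ℝ) (S : Finset (FinitePlace K)) (Λ : ℝ),
    2 ≤ Fintype.card ι → 1 ≤ k → k * Fintype.card ι + 1 ≤ r → (∀ i, r ≤ n i + 1) →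
    Twr k r c G → (∀ l, I l ≠ ⊥) → 1 ≤ c0 → 0 ≤ Λ →
    (∀ δ : ℝ, 0 < δ → ∃ C : ℝ, 0 ≤ C ∧ ∀ b : ι → ℕ, (∀ l, 1 ≤ b l) →
      ((FF c G b).card : ℝ) ≤
        C * (∏ l, (b l : ℝ) ^ (dg K * (n l + 1 - k))) * (∏ l, (b l : ℝ)) ^ δ) →
    ∃ θ η C : ℝ, 0 < θ ∧ θ < 1 ∧ 0 < η ∧ 0 ≤ C ∧
      ∀ t : ι → (K →+* ℂ) → ℝ, (∀ l, Shp c0 (t l)) → ∀ W : Vs K n → ℝ, LipW S Λ W →
      ∀ (b : ι → ℕ) (M : ℕ) (i : ι), (∀ l, 1 ≤ b l) → (∀ l, b l ≤ M) → ⌈(M : ℝ) ^ θ⌉₊ ≤ b i →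
        |cntw (UU c G) W I t b * (⌈(M : ℝ) ^ θ⌉₊ : ℝ) ^ (dg K * (n i + 1 - k)) -
          cntw (UU c G) W I t (update b i ⌈(M : ℝ) ^ θ⌉₊) * (b i : ℝ) ^ (dg K * (n i + 1 - k))| ≤
          C * (M : ℝ) ^ (-η) * ((b i : ℝ) ^ (dg K * (n i + 1 - k)) *
            ((FFg c G I t (update b i ⌈(M : ℝ) ^ θ⌉₊)).card +
              ∏ l, ((update b i ⌈(M : ℝ) ^ θ⌉₊ l : ℕ) : ℝ) ^ (dg K * (n l + 1 - k))))

/-- EOW-4 (GGW): the asymptotic behaviour of the mean `G`, with weights. -/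
def S_GGW : Prop :=
  ∀ (K : Type) [Field K] [NumberField K] (ι : Type) [Fintype ι] [DecidableEq ι] (n E : ι → ℕ)
    (U : Vs K n → Prop) (W : Vs K n → ℝ),
    (∀ a : ι → K, (∀ i, a i ≠ 0) → ∀ P, U P → U fun i => a i • P i) →
    (∀ P, U P → ∀ i, P i ≠ 0) → (∀ P, 0 ≤ W P) → (∀ P, W P ≤ 1) →
    (∀ (a : ι → K) (P : Vs K n), (∀ i, a i ≠ 0) → W (fun i => a i • P i) = W P) →
    (∀ (I : ι → Ideal (𝓞 K)) (c0 : ℝ), (∀ l, I l ≠ ⊥) → 1 ≤ c0 → ∃ C η : ℝ, 0 ≤ C ∧ 0 < η ∧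
      ∀ t : ι → (K →+* ℂ) → ℝ, (∀ l, Shp c0 (t l)) → ∃ R : ℝ, 0 ≤ R ∧
        ∀ (b : ι → ℕ) (m : ℕ), 1 ≤ m → (∀ l, m ≤ b l) →
          |cntw U W I t b - R * ∏ l, (b l : ℝ) ^ E l| ≤
            C * (m : ℝ) ^ (-η) * ∏ l, (b l : ℝ) ^ E l) →
    ∃ R C η : ℝ, 0 ≤ R ∧ 0 ≤ C ∧ 0 < η ∧ ∀ (b : ι → ℕ) (m : ℕ), 1 ≤ m → (∀ l, m ≤ b l) →
      |GGw (YU U) (fun y => W fun i => (y.1 i).rep) hh (Units.rank K) (dg K) b -
          R * ∏ l, (b l : ℝ) ^ E l| ≤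
        C * (m : ℝ) ^ (-η) * ∏ l, (b l : ℝ) ^ E l

/-- EOW-5 (TAUW): from the mean to the sum of the weights (abstract). -/
def S_TAUW : Prop :=
  ∀ (ι : Type) [Fintype ι] [DecidableEq ι] (Y : Type) (S : Set Y) (w : Y → ℝ) (h : ι → Y → ℝ)
    (q d : ℕ) (r : ι → ℕ) (R C η : ℝ), 1 ≤ d → (∀ l, 1 ≤ r l) → 0 ≤ R → 0 ≤ C → 0 < η →
    (∀ y, 0 ≤ w y) → (∀ y, w y ≤ 1) →
    (∀ l, ∀ y ∈ S, 1 ≤ h l y) → (∀ β : ℝ, {y ∈ S | ∀ l, h l y ≤ β}.Finite) →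
    (∀ (b : ι → ℕ) (m : ℕ), 1 ≤ m → (∀ l, m ≤ b l) →
      |GGw S w h q d b - R * ∏ l, (b l : ℝ) ^ (d * r l)| ≤
        C * (m : ℝ) ^ (-η) * ∏ l, (b l : ℝ) ^ (d * r l)) →
    ∃ R' C' η' : ℝ, 0 ≤ R' ∧ 0 ≤ C' ∧ 0 < η' ∧ ∀ (β : ι → ℝ) (m : ℝ), 1 ≤ m → (∀ l, m ≤ β l) →
      |∑ᶠ y ∈ {y ∈ S | ∀ l, h l y ≤ β l}, w y - R' * ∏ l, β l ^ r l| ≤
        C' * m ^ (-η') * ∏ l, β l ^ r l

/-- EOW-6 (HYPRW): hyperbola method for real heights, with weights (abstract). -/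
def S_HYPRW : Prop :=
  ∀ (ι : Type) [Fintype ι] [DecidableEq ι] (Y : Type) (S : Set Y) (w : Y → ℝ) (h : ι → Y → ℝ)
    (r : ι → ℕ) (R C η : ℝ), 1 ≤ Fintype.card ι → (∀ l, 1 ≤ r l) → 0 ≤ R → 0 ≤ C → 0 < η →
    (∀ y, 0 ≤ w y) → (∀ y, w y ≤ 1) →
    (∀ l, ∀ y ∈ S, 1 ≤ h l y) → (∀ β : ℝ, {y ∈ S | ∀ l, h l y ≤ β}.Finite) →
    (∀ (β : ι → ℝ) (m : ℝ), 1 ≤ m → (∀ l, m ≤ β l) →
      |∑ᶠ y ∈ {y ∈ S | ∀ l, h l y ≤ β l}, w y - R * ∏ l, β l ^ r l| ≤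
        C * m ^ (-η) * ∏ l, β l ^ r l) →
    Filter.Tendsto (fun B : ℝ => (∑ᶠ y ∈ {y ∈ S | ∏ l, h l y ^ r l ≤ B}, w y) /
      (B * Real.log B ^ (Fintype.card ι - 1))) Filter.atTop
      (nhds (R / (Fintype.card ι - 1).factorial))

/-- EOW-7 (MOBKW): inversion of Moebius for ideals, with weights. -/
def S_MOBKW : Prop :=
  ∀ (K : Type) [Field K] [NumberField K] (ι : Type) [Fintype ι] [DecidableEq ι] (n r : ι → ℕ)
    (U : Vs K n → Prop) (W : Vs K n → ℝ) (R : ℝ), 1 ≤ Fintype.card ι → (∀ l, 2 ≤ r l) →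
    (∀ P, 0 ≤ W P) → (∀ P, W P ≤ 1) →
    (∀ B : ℝ, {y ∈ YU U | ∏ l, hh l y ^ r l ≤ B}.Finite) →
    Filter.Tendsto (fun B : ℝ => (∑ᶠ y ∈ {y ∈ YU U | ∏ l, hh l y ^ r l ≤ B},
        W fun i => (y.1 i).rep) /
      (B * Real.log B ^ (Fintype.card ι - 1))) Filter.atTop (nhds R) →
    ∃ c : ℝ, Filter.Tendsto (fun B : ℝ =>
      (∑ᶠ x ∈ {x : Pts K n | U (fun i => (x i).rep) ∧ ∏ i, (x i).mulHeight ^ r i ≤ B},
        W fun i => (x i).rep) /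
        (B * Real.log B ^ (Fintype.card ι - 1))) Filter.atTop (nhds c)

/-- EOW-8 (PSI): from weights to heights (abstract). -/
def S_PSI : Prop :=
  ∀ (Y : Type) (H Ψ : Y → ℝ) (L : ℕ) (m M : ℝ), 0 < m → (∀ y, m ≤ Ψ y) → (∀ y, Ψ y ≤ M) →
    (∀ B : ℝ, {y | H y ≤ B}.Finite) →
    (∀ g : ℝ → ℝ, (∃ Λ : ℝ, ∀ u v, |g u - g v| ≤ Λ * |u - v|) → (∀ u, 0 ≤ g u) →
      (∀ u, g u ≤ 1) → ∀ ε : ℝ, 0 < ε → ∃ (w : Y → ℝ) (c : ℝ), (∀ y, |w y - g (Ψ y)| ≤ ε) ∧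
        Filter.Tendsto (fun B : ℝ => (∑ᶠ y ∈ {y | H y ≤ B}, w y) / (B * Real.log B ^ L))
          Filter.atTop (nhds c)) →
    (∃ c : ℝ, 0 < c ∧ Filter.Tendsto
      (fun B : ℝ => (({y | H y ≤ B}.ncard : ℕ) : ℝ) / (B * Real.log B ^ L)) Filter.atTop (nhds c)) →
    ∃ c : ℝ, 0 < c ∧ Filter.Tendsto
      (fun B : ℝ => (({y | H y * Ψ y ≤ B}.ncard : ℕ) : ℝ) / (B * Real.log B ^ L)) Filter.atTop
      (nhds c)

/-- EOW-9 (APX): uniformly continuous functions are uniform limits of weights. -/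
def S_APX : Prop :=
  ∀ (K : Type) [Field K] [NumberField K] (ι : Type) [Fintype ι] [DecidableEq ι] (n : ι → ℕ)
    (Z : Vs K n → Prop) (f : Vs K n → ℝ) (S : Finset (FinitePlace K)),
    (∀ a : ι → K, (∀ i, a i ≠ 0) → ∀ P, Z P → Z fun i => a i • P i) →
    (∀ P, Z P → ∀ i, P i ≠ 0) →
    (∀ P, Z P → 0 ≤ f P) → (∀ P, Z P → f P ≤ 1) →
    (∀ a : ι → K, (∀ i, a i ≠ 0) → ∀ P, Z P → f (fun i => a i • P i) = f P) →
    (∀ ε : ℝ, 0 < ε → ∃ δ : ℝ, 0 < δ ∧ ∀ P Q, Z P → Z Q →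
      (∀ i, ∀ v : InfinitePlace K, nv v (P i - Q i) ≤ δ * nv v (P i)) →
      (∀ i, ∀ v ∈ S, nv v (P i - Q i) ≤ δ * nv v (P i)) → |f P - f Q| ≤ ε) →
    ∀ ε : ℝ, 0 < ε → ∃ (Λ : ℝ) (W : Vs K n → ℝ), 0 ≤ Λ ∧ LipW S Λ W ∧ ∀ P, Z P → |W P - f P| ≤ ε

end Pool.Agent.Q35.EOW
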