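import Mathlib
import Pool.Agent.Q35.EOW.Stm
import Pool.Agent.Q35.EO.Fin

set_option autoImplicit false

namespace Pool.Agent.Q35.EOW

open Finset Function MvPolynomial NumberField
open Pool.Agent.Q35.MM (bx dg Pts fuj mem_bx)
open Pool.Agent.Q35.SM (Cof Vs Var Pol ev pv MH Opn Cut Twr UU Smth FF pv_smul ev_smul UU_smul
  MH_one MH_mul MH_prod)
open Pool.Agent.Q35.EO (S1g bxg Shp nug FFg YU hh S_LAT S_FIB S_UN S_GG S_TAU S_HYPR S_MOBK S_HYP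
  S_ST S_DE mem_bxg bxg_subset FFg_card_le upbox uu_ne_zero)

section

variable {K : Type} [Field K] [NumberField K] {ι : Type} [Fintype ι] [DecidableEq ι] {n : ι → ℕ}

theorem cntw_nonneg (U : Vs K n → Prop) {W : Vs K n → ℝ} (hW : ∀ P, 0 ≤ W P)
    (I : ι → Ideal (𝓞 K)) (t : ι → (K →+* ℂ) → ℝ) (b : ι → ℕ) : 0 ≤ cntw U W I t b := by
  unfold cntw
  exact Finset.sum_nonneg fun P _ => hW P

theorem cntw_le {k : ℕ} (c : Fin k → Cof K n) (G : Finset ι → Finset (Pol K n))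
    {W : Vs K n → ℝ} (hW : ∀ P, W P ≤ 1) (I : ι → Ideal (𝓞 K)) (t : ι → (K →+* ℂ) → ℝ)
    (b : ι → ℕ) : cntw (UU c G) W I t b ≤ ((FFg c G I t b).card : ℝ) := by
  classical
  unfold cntw FFg
  refine (Finset.sum_le_card_nsmul _ _ 1 fun P _ => hW P).trans ?_
  rw [nsmul_eq_mul, mul_one]

/-- The vectors in boxes of bounded shape are in standard boxes. -/
theorem FFg_le_FF {k : ℕ} (c : Fin k → Cof K n) (G : Finset ι → Finset (Pol K n))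
    (I : ι → Ideal (𝓞 K)) {t : ι → (K →+* ℂ) → ℝ} {c0 : ℝ} (ht : ∀ l, Shp c0 (t l)) (b : ι → ℕ) :
    (FFg c G I t b).card ≤ (FF c G fun l => ⌈c0⌉₊ * b l).card := by
  classical
  apply Finset.card_le_card
  intro P hP
  unfold FFg at hP
  unfold FF
  rw [mem_filter, Fintype.mem_piFinset] at hP ⊢
  exact ⟨fun l => bxg_subset (ht l) le_rfl (hP.1 l), hP.2⟩

end

/-- The asymptotic formula in boxes for weights. -/
theorem asymw (hST : S_ST) (hDE : S_DE) (hSTW : S_STW) (K : Type) [Field K] [NumberField K]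
    (ι : Type) [Fintype ι] [DecidableEq ι] (n : ι → ℕ) (k r : ℕ) (c : Fin k → Cof K n)
    (G : Finset ι → Finset (Pol K n)) (hι : 2 ≤ Fintype.card ι) (hk : 1 ≤ k)
    (hr : k * Fintype.card ι + 1 ≤ r) (hrn : ∀ i, r ≤ n i + 1) (hT : Twr k r c G)
    (hWB : ∀ δ : ℝ, 0 < δ → ∃ C : ℝ, 0 ≤ C ∧ ∀ b : ι → ℕ, (∀ l, 1 ≤ b l) →
      ((FF c G b).card : ℝ) ≤
        C * (∏ l, (b l : ℝ) ^ (dg K * (n l + 1 - k))) * (∏ l, (b l : ℝ)) ^ δ)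
    (S : Finset (FinitePlace K)) (Λ : ℝ) (hΛ : 0 ≤ Λ)
    (I : ι → Ideal (𝓞 K)) (c0 : ℝ) (hI : ∀ l, I l ≠ ⊥) (hc0 : 1 ≤ c0) :
    ∃ C η : ℝ, 0 ≤ C ∧ 0 < η ∧ ∀ t : ι → (K →+* ℂ) → ℝ, (∀ l, Shp c0 (t l)) →
      ∀ W : Vs K n → ℝ, LipW S Λ W → ∃ R : ℝ, 0 ≤ R ∧
      ∀ (b : ι → ℕ) (m : ℕ), 1 ≤ m → (∀ l, m ≤ b l) →
        |cntw (UU c G) W I t b - R * ∏ l, (b l : ℝ) ^ (dg K * (n l + 1 - k))| ≤
          C * (m : ℝ) ^ (-η) * ∏ l, (b l : ℝ) ^ (dg K * (n l + 1 - k)) := by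
  obtain ⟨C1, hC1, hup⟩ := upbox hST hDE K ι n k r c G hι hk hr hrn hT hWB
  obtain ⟨C2, hC2⟩ : ∃ C2 : ℝ, C2 = C1 * ∏ l : ι, (⌈c0⌉₊ : ℝ) ^ (dg K * (n l + 1 - k)) := ⟨_, rfl⟩
  have hC20 : 0 ≤ C2 := by
    rw [hC2]
    positivity
  have hceil : 1 ≤ ⌈c0⌉₊ := by
    have h1 : (1 : ℝ) ≤ (⌈c0⌉₊ : ℝ) := hc0.trans (Nat.le_ceil c0)
    exact_mod_cast h1
  have hbd : ∀ t : ι → (K →+* ℂ) → ℝ, (∀ l, Shp c0 (t l)) → ∀ b : ι → ℕ, (∀ l, 1 ≤ b l) →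
      ((FFg c G I t b).card : ℝ) ≤ C2 * ∏ l, (b l : ℝ) ^ (dg K * (n l + 1 - k)) := by
    intro t ht b hb
    have h1 : ((FFg c G I t b).card : ℝ) ≤ ((FF c G fun l => ⌈c0⌉₊ * b l).card : ℝ) := by
      exact_mod_cast FFg_le_FF c G I ht b
    have h2 := hup (fun l => ⌈c0⌉₊ * b l) (fun l => Nat.mul_pos hceil (hb l))
    refine h1.trans (h2.trans (le_of_eq ?_))
    rw [hC2, mul_assoc, ← Finset.prod_mul_distrib]
    congr 1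
    refine Finset.prod_congr rfl fun l _ => ?_
    push_cast
    rw [mul_pow]
  obtain ⟨θ, η, C, hθ0, hθ1, hη, hC, hst⟩ :=
    hSTW K ι n k r c G I c0 S Λ hι hk hr hrn hT hI hc0 hΛ hWB
  obtain ⟨C', η', hC', hη', hde⟩ := hDE ι (fun l => dg K * (n l + 1 - k)) θ η (C * (C2 + 1))
    (fun M => ∏ l : ι, ((bx K (n l + 1) (⌈c0⌉₊ * M)).card : ℝ)) hθ0 hθ1 hη (by positivity)
  refine ⟨C', η', hC', hη', fun t ht W hW => ?_⟩
  refine hde (fun b => cntw (UU c G) W I t b) (fun b => cntw_nonneg _ hW.nonneg _ _ _)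
    (fun b M hb => (cntw_le c G hW.le_one I t b).trans (FFg_card_le c G I ht hb))
    (fun b M i h1 h2 h3 => ?_)
  have h4 := hst t ht W hW b M i h1 h2 h3
  refine h4.trans ?_
  have hM1 : (1 : ℕ) ≤ M := (h1 i).trans (h2 i)
  have hρ1 : 1 ≤ ⌈(M : ℝ) ^ θ⌉₊ := by
    have h5 : (1 : ℝ) ≤ (M : ℝ) ^ θ := Real.one_le_rpow (by exact_mod_cast hM1) hθ0.le
    have h6 : (1 : ℝ) ≤ (⌈(M : ℝ) ^ θ⌉₊ : ℝ) := h5.trans (Nat.le_ceil _)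
    exact_mod_cast h6
  have hup1 : ∀ l, 1 ≤ update b i ⌈(M : ℝ) ^ θ⌉₊ l := by
    intro l
    by_cases hl : l = i
    · subst hl
      rw [update_self]
      exact hρ1
    · rw [update_of_ne hl]
      exact h1 l
  have h7 := hbd t ht _ hup1
  have h8 : 0 ≤ cntw (UU c G) W I t (update b i ⌈(M : ℝ) ^ θ⌉₊) :=
    cntw_nonneg _ hW.nonneg _ _ _
  set Q : ℝ := ∏ l, ((update b i ⌈(M : ℝ) ^ θ⌉₊ l : ℕ) : ℝ) ^ (dg K * (n l + 1 - k)) with hQ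
  have hQ0 : 0 ≤ Q := by
    rw [hQ]
    positivity
  have h9 : ((FFg c G I t (update b i ⌈(M : ℝ) ^ θ⌉₊)).card : ℝ) + Q ≤
      (C2 + 1) * (cntw (UU c G) W I t (update b i ⌈(M : ℝ) ^ θ⌉₊) + Q) := by
    nlinarith [mul_nonneg hC20 h8]
  calc C * (M : ℝ) ^ (-η) * ((b i : ℝ) ^ (dg K * (n i + 1 - k)) *
        (((FFg c G I t (update b i ⌈(M : ℝ) ^ θ⌉₊)).card : ℝ) + Q))
      ≤ C * (M : ℝ) ^ (-η) * ((b i : ℝ) ^ (dg K * (n i + 1 - k)) *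
        ((C2 + 1) * (cntw (UU c G) W I t (update b i ⌈(M : ℝ) ^ θ⌉₊) + Q))) := by
        refine mul_le_mul_of_nonneg_left (mul_le_mul_of_nonneg_left h9 (by positivity))
          (by positivity)
    _ = C * (C2 + 1) * (M : ℝ) ^ (-η) * ((b i : ℝ) ^ (dg K * (n i + 1 - k)) *
        (cntw (UU c G) W I t (update b i ⌈(M : ℝ) ^ θ⌉₊) + Q)) := by ring

end Pool.Agent.Q35.EOW
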