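import Mathlib
import Pool.Agent.Q35.EOW.Asy

set_option autoImplicit false

namespace Pool.Agent.Q35.EOW

open Finset Function MvPolynomial NumberField
open Pool.Agent.Q35.MM (bx dg Pts fuj mem_bx)
open Pool.Agent.Q35.SM (Cof Vs Var Pol ev pv MH Opn Cut Twr UU Smth FF pv_smul ev_smul UU_smul
  MH_one MH_mul MH_prod)
open Pool.Agent.Q35.EO (S1g bxg Shp nug FFg YU hh S_LAT S_FIB S_UN S_GG S_TAU S_HYPR S_MOBK S_HYP
  S_ST S_DE S_HT S_SUM2 mem_bxg bxg_subset FFg_card_le upbox uu_ne_zero In G0 in_iff tower wb pt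
  asym cntg lowL G0_MH G0_iff erase_ne_univ mlt)

/-- A positive function on `X(K)` which is a product of continuous functions for the places in `S` and
the infinite places. -/
structure Fac {K : Type} [Field K] [NumberField K] {ι : Type} [Fintype ι] [DecidableEq ι]
    {n : ι → ℕ} (Z : Vs K n → Prop) (S : Finset (FinitePlace K)) (Ψ : Vs K n → ℝ) : Prop where
  bounds : ∃ m M : ℝ, 0 < m ∧ ∀ P, Z P → m ≤ Ψ P ∧ Ψ P ≤ M
  smul : ∀ a : ι → K, (∀ i, a i ≠ 0) → ∀ P, Z P → Ψ (fun i => a i • P i) = Ψ P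
  cont : ∀ ε : ℝ, 0 < ε → ∃ δ : ℝ, 0 < δ ∧ ∀ P Q, Z P → Z Q →
    (∀ i, ∀ v : InfinitePlace K, nv v (P i - Q i) ≤ δ * nv v (P i)) →
    (∀ i, ∀ v ∈ S, nv v (P i - Q i) ≤ δ * nv v (P i)) → |Ψ P - Ψ Q| ≤ ε

theorem finsum_subtype' {Y : Type} (Z : Y → Prop) (A : Set Y) (f : Y → ℝ) :
    ∑ᶠ y ∈ {y : {y : Y // Z y} | (y : Y) ∈ A}, f y = ∑ᶠ y ∈ {y : Y | Z y ∧ y ∈ A}, f y := by
  have h1 : {y : Y | Z y ∧ y ∈ A} = (fun y : {y : Y // Z y} => (y : Y)) '' {y | (y : Y) ∈ A} := by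
    ext y
    constructor
    · rintro ⟨h1, h2⟩
      exact ⟨⟨y, h1⟩, h2, rfl⟩
    · rintro ⟨y', h2, rfl⟩
      exact ⟨y'.2, h2⟩
  rw [h1, finsum_mem_image Subtype.coe_injective.injOn]

theorem ncard_subtype' {Y : Type} (Z : Y → Prop) (A : Set Y) :
    {y : {y : Y // Z y} | (y : Y) ∈ A}.ncard = {y : Y | Z y ∧ y ∈ A}.ncard := by
  have h1 : {y : Y | Z y ∧ y ∈ A} = (fun y : {y : Y // Z y} => (y : Y)) '' {y | (y : Y) ∈ A} := by
    ext y
    constructor
    · rintro ⟨h1, h2⟩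
      exact ⟨⟨y, h1⟩, h2, rfl⟩
    · rintro ⟨y', h2, rfl⟩
      exact ⟨y'.2, h2⟩
  rw [h1, Set.ncard_image_of_injective _ Subtype.coe_injective]

/-- The asymptotic formula for all adelic heights. -/
theorem final (hAD : Pool.Agent.Q35.MM.S_AD) (hT0 : Pool.Agent.Q35.SM.S_T)
    (hD : Pool.Agent.Q35.SM.S_D) (hE : Pool.Agent.Q35.SM.S_E) (hF : Pool.Agent.Q35.SM.S_F)
    (hC : Pool.Agent.Q35.SM.S_C) (hLW : Pool.Agent.Q35.MM.S_LW) (hG0 : Pool.Agent.Q35.SM.S_G)
    (hST : S_ST) (hDE : S_DE) (hHT : S_HT) (hSC : Pool.Agent.Q35.LO.S_SC) (hSUM : S_SUM2)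
    (hNO : Pool.Agent.Q35.LO.S_NO) (hGG : S_GG) (hTAU : S_TAU) (hHYPR : S_HYPR) (hMOBK : S_MOBK)
    (hSTW : S_STW) (hGGW : S_GGW) (hTAUW : S_TAUW) (hHYPRW : S_HYPRW) (hMOBKW : S_MOBKW)
    (hPSI : S_PSI) (hAPX : S_APX) (K : Type) [Field K] [NumberField K] (ι : Type)
    [Fintype ι] [DecidableEq ι] (hι : 2 ≤ Fintype.card ι) (n : ι → ℕ) (k : ℕ) (hk : 1 ≤ k)
    (hn : ∀ i, k * Fintype.card ι * (Fintype.card ι - 1) + k ≤ n i + 1)
    (c : Fin k → Cof K n) (hc : Smth c) :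
    ∃ A : Finset (Pol K n), (∀ g ∈ A, MH g) ∧ (∃ x : Pts K n, In c A x) ∧
      ∀ (S : Finset (FinitePlace K)) (Ψ : Vs K n → ℝ),
        Fac (fun P => (∀ i, P i ≠ 0) ∧ ∀ t, ev K (c t) P = 0) S Ψ →
        ∃ c2 : ℝ, 0 < c2 ∧ Filter.Tendsto (fun B : ℝ =>
          (({x : Pts K n | In c A x ∧ (∏ i, (x i).mulHeight ^ (n i + 1 - k)) *
            Ψ (fun i => (x i).rep) ≤ B}.ncard : ℕ) : ℝ) /
            (B * Real.log B ^ (Fintype.card ι - 1))) Filter.atTop (nhds c2) := by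
  classical
  obtain ⟨hrn, hkn, G, hT, P, hP⟩ := tower hT0 hD hE hF hC hLW K ι hι n k hk hn c hc
  have hne : Nonempty ι := by
    rw [← Fintype.card_pos_iff]
    omega
  have hkn' : ∀ i, k ≤ n i := fun i => by
    have := hkn i
    omega
  have hWB := wb hAD hT0 hG0 K ι n k _ c G hι hk (Nat.le_succ _) hrn hT
  have hdg : 1 ≤ dg K := Module.finrank_pos
  have hUs : ∀ a : ι → K, (∀ i, a i ≠ 0) → ∀ P, UU c G P → UU c G fun i => a i • P i :=
    fun a ha P hP => UU_smul c G hT.hom a ha P hP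
  have hU0 : ∀ P, UU c G P → ∀ i, P i ≠ 0 := fun P hP => uu_ne_zero hT hι hk hP
  -- the unweighted formula
  obtain ⟨hfin, R, C, η, hR, hC0, hη, hgg⟩ := hGG K ι n (fun l => dg K * (n l + 1 - k))
    (UU c G) hUs hU0 (fun I c0 hI hc0 => by
      obtain ⟨C, η, h1, h2, h3⟩ := asym hST hDE K ι n k _ c G hι hk le_rfl hrn hT hWB I c0 hI hc0
      refine ⟨C, η, h1, h2, fun t ht => ?_⟩
      obtain ⟨R, h4, h5⟩ := h3 t ht
      refine ⟨R, h4, fun b m hm hb => ?_⟩
      have h6 := h5 b m hm hb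
      convert h6 using 5
      unfold cntg FFg
      congr 2)
  have hh1 : ∀ l, ∀ y ∈ YU (UU c G), 1 ≤ hh (K := K) (n := n) l y := by
    intro l y hy
    unfold hh
    have h1 : (1 : ℝ) ≤ Ideal.absNorm (y.2 l) := by
      have h2 : Ideal.absNorm (y.2 l) ≠ 0 := by
        rw [Ne, Ideal.absNorm_eq_zero_iff]
        exact hy.2 l
      exact_mod_cast Nat.one_le_iff_ne_zero.2 h2
    have h3 : 1 ≤ (y.1 l).mulHeight := (y.1 l).one_le_mulHeight
    nlinarith
  obtain ⟨R', C', η', hR', hC', hη', htau⟩ := hTAU ι _ (YU (UU c G)) hh (Units.rank K) (dg K)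
    (fun l => n l + 1 - k) R C η hdg (fun l => by have := hkn l; omega) hR hC0 hη hh1 hfin
    (fun b m hm hb => hgg b m hm hb)
  obtain ⟨hfin2, hlim⟩ := hHYPR ι _ (YU (UU c G)) hh (fun l => n l + 1 - k) R' C' η'
    (by omega) (fun l => by have := hkn l; omega) hR' hC' hη' hh1 hfin htau
  -- weights
  have hW : ∀ (S : Finset (FinitePlace K)) (Λ : ℝ), 0 ≤ Λ → ∀ W : Vs K n → ℝ, LipW S Λ W →
      ∃ c3 : ℝ, Filter.Tendsto (fun B : ℝ =>
        (∑ᶠ x ∈ {x : Pts K n | UU c G (fun i => (x i).rep) ∧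
          ∏ i, (x i).mulHeight ^ (n i + 1 - k) ≤ B}, W fun i => (x i).rep) /
          (B * Real.log B ^ (Fintype.card ι - 1))) Filter.atTop (nhds c3) := by
    intro S Λ hΛ W hLW
    obtain ⟨R1, C1, η1, hR1, hC1, hη1, hgg1⟩ := hGGW K ι n (fun l => dg K * (n l + 1 - k))
      (UU c G) W hUs hU0 hLW.nonneg hLW.le_one hLW.smul (fun I c0 hI hc0 => by
        obtain ⟨C, η, h1, h2, h3⟩ := asymw hST hDE hSTW K ι n k _ c G hι hk le_rfl hrn hT hWB
          S Λ hΛ I c0 hI hc0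
        exact ⟨C, η, h1, h2, fun t ht => h3 t ht W hLW⟩)
    obtain ⟨R2, C2, η2, hR2, hC2, hη2, htau2⟩ := hTAUW ι _ (YU (UU c G))
      (fun y => W fun i => (y.1 i).rep) hh (Units.rank K) (dg K)
      (fun l => n l + 1 - k) R1 C1 η1 hdg (fun l => by have := hkn l; omega) hR1 hC1 hη1
      (fun y => hLW.nonneg _) (fun y => hLW.le_one _) hh1 hfin
      (fun b m hm hb => hgg1 b m hm hb)
    have hlim2 := hHYPRW ι _ (YU (UU c G)) (fun y => W fun i => (y.1 i).rep) hh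
      (fun l => n l + 1 - k) R2 C2 η2 (by omega) (fun l => by have := hkn l; omega) hR2 hC2 hη2
      (fun y => hLW.nonneg _) (fun y => hLW.le_one _) hh1 hfin htau2
    exact hMOBKW K ι n (fun l => n l + 1 - k) (UU c G) W _ (by omega)
      (fun l => by have := hkn l; omega) hLW.nonneg hLW.le_one hfin2 hlim2
  -- the unweighted formula, from the first part
  obtain ⟨A', hA1, -, hA3, hA4, hA5⟩ : ∃ A : Finset (Pol K n), A = G0 G ∧ (∀ g ∈ A, MH g) ∧
      (∃ x : Pts K n, In c A x) ∧ (∀ x : Pts K n, In c A x ↔ UU c G fun i => (x i).rep) ∧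
      ∃ c2 : ℝ, 0 < c2 ∧ Filter.Tendsto (fun B : ℝ =>
        (({x : Pts K n | UU c G (fun i => (x i).rep) ∧
          ∏ i, (x i).mulHeight ^ (n i + 1 - k) ≤ B}.ncard : ℕ) : ℝ) /
          (B * Real.log B ^ (Fintype.card ι - 1))) Filter.atTop (nhds c2) := by
    refine ⟨G0 G, rfl, G0_MH hT.hom, pt hT hι hk hP, fun x => in_iff c G x, ?_⟩
    obtain ⟨c2, hc2⟩ := hMOBK K ι n (fun l => n l + 1 - k) (UU c G) _ (by omega)
      (fun l => by have := hkn l; omega) hfin2 hlim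
    refine ⟨c2, ?_, hc2⟩
    -- positivity
    obtain ⟨x0, hx0⟩ := pt hT hι hk hP
    obtain ⟨h1, g, hg, h2⟩ := hx0
    have hgx : pv (AlgebraicClosure K) g
        (fun i a => algebraMap K (AlgebraicClosure K) ((x0 i).rep a)) ≠ 0 := by
      intro h3
      apply h2
      unfold pv at h3 ⊢
      have h4 : aeval (fun v : Var n => algebraMap K (AlgebraicClosure K)
          ((x0 v.1).rep v.2)) g = algebraMap K (AlgebraicClosure K)
          (aeval (fun v : Var n => (x0 v.1).rep v.2) g) :=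
        MvPolynomial.aeval_algebraMap_apply (AlgebraicClosure K)
          (fun v : Var n => (x0 v.1).rep v.2) g
      have h3' : aeval (fun v : Var n => algebraMap K (AlgebraicClosure K)
          ((x0 v.1).rep v.2)) g = 0 := h3
      rw [h4, map_eq_zero] at h3'
      exact h3'
    have hind : ∀ j, LinearIndependent (AlgebraicClosure K)
        fun (t : Fin k) (a : Fin (n j + 1)) => ev (AlgebraicClosure K) (c t)
          (update (fun i a => algebraMap K (AlgebraicClosure K) ((x0 i).rep a)) j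
            (Pi.single a 1)) := by
      intro j
      rw [← hT.base j (AlgebraicClosure K) _]
      exact (G0_iff G (AlgebraicClosure K) _).1 ⟨g, hg, hgx⟩ _ (erase_ne_univ j)
    obtain ⟨c1, B1, hc1, hl1⟩ := lowL hSC hSUM hNO K ι hι n k hk hkn c g (G0_MH hT.hom g hg)
      ⟨fun i a => algebraMap K (AlgebraicClosure K) ((x0 i).rep a), fun t => by
        have h3 := h1 t
        unfold ev at h3 ⊢
        have h4 := congrArg (algebraMap K (AlgebraicClosure K)) h3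
        rw [map_sum, map_zero] at h4
        simpa only [map_mul, map_prod, Algebra.algebraMap_self, RingHom.id_apply] using h4,
        hgx, hind⟩
      (fun i => ((n i + 1 - k : ℕ) : ℝ)) (fun i => by
        have := hkn' i
        exact_mod_cast (by omega : 0 < n i + 1 - k))
    rw [Pool.Agent.Q35.LO.fuj_one hne n k hkn'] at hl1
    have hmlt : mlt n k (fun i => ((n i + 1 - k : ℕ) : ℝ)) = Fintype.card ι := by
      unfold mlt
      have h1 : {i : ι | fuj n k (fun i => ((n i + 1 - k : ℕ) : ℝ)) * ((n i + 1 - k : ℕ) : ℝ) =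
          (n i : ℝ) + 1 - k} = Set.univ := by
        ext i
        rw [Pool.Agent.Q35.LO.fuj_one hne n k hkn']
        simp only [one_mul, Set.mem_univ, iff_true, Set.mem_setOf_eq]
        have := hkn' i
        rw [Nat.cast_sub (by omega)]
        push_cast
        ring
      rw [h1, Set.ncard_univ, Nat.card_eq_fintype_card]
    have hfinU : ∀ B : ℝ, {x : Pts K n | UU c G (fun i => (x i).rep) ∧
          ∏ i, (x i).mulHeight ^ (n i + 1 - k) ≤ B}.Finite := by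
      intro B
      refine (hNO K ι n (fun l => n l + 1 - k) (fun l => by have := hkn l; omega) B).subset ?_
      rintro x ⟨-, hx⟩
      exact hx
    refine lt_of_lt_of_le hc1 (ge_of_tendsto hc2 ?_)
    filter_upwards [Filter.eventually_ge_atTop (max B1 3)] with B hB
    have hB1 : B1 ≤ B := (le_max_left _ _).trans hB
    have hB3 : (3 : ℝ) ≤ B := (le_max_right _ _).trans hB
    have h3 := hl1 B hB1
    rw [hmlt, Real.rpow_one] at h3
    have hlog : 0 < Real.log B := Real.log_pos (by linarith)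
    rw [le_div_iff₀ (by positivity), ← mul_assoc]
    refine h3.trans ?_
    have hsub : {x : Pts K n | ((∀ t, ev K (c t) (fun i => (x i).rep) = 0) ∧
          pv K g (fun i => (x i).rep) ≠ 0) ∧ ∏ i, (x i).mulHeight ^ ((n i + 1 - k : ℕ) : ℝ) ≤ B} ⊆
        {x : Pts K n | UU c G (fun i => (x i).rep) ∧
          ∏ i, (x i).mulHeight ^ (n i + 1 - k) ≤ B} := by
      rintro y ⟨⟨hy1, hy2⟩, hy3⟩
      refine ⟨(in_iff c G y).1 ⟨hy1, g, hg, hy2⟩, ?_⟩
      simpa only [Real.rpow_natCast] using hy3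
    exact_mod_cast Set.ncard_le_ncard hsub (hfinU B)
  subst hA1
  obtain ⟨c4, hc4, hlim4⟩ := hA5
  refine ⟨G0 G, G0_MH hT.hom, hA3, fun S Ψ hΨ => ?_⟩
  obtain ⟨m, M, hm, hmM⟩ := hΨ.bounds
  -- the points as a type
  set Y : Type := {x : Pts K n // UU c G (fun i => (x i).rep)} with hY
  have hZ : ∀ P, UU c G P → (∀ i, P i ≠ 0) ∧ ∀ t, ev K (c t) P = 0 :=
    fun P hP => ⟨hU0 P hP, hP.1⟩
  obtain ⟨c5, hc5, hlim5⟩ := hPSI Y (fun y => ∏ i, (y.1 i).mulHeight ^ (n i + 1 - k))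
    (fun y => Ψ fun i => (y.1 i).rep) (Fintype.card ι - 1) m M hm
    (fun y => (hmM _ (hZ _ y.2)).1) (fun y => (hmM _ (hZ _ y.2)).2)
    (fun B => by
      have h1 : {x : Pts K n | ∏ i, (x i).mulHeight ^ (n i + 1 - k) ≤ B}.Finite :=
        hNO K ι n (fun l => n l + 1 - k) (fun l => by have := hkn l; omega) B
      exact h1.preimage (Subtype.coe_injective.injOn))
    (fun g hg1 hg2 hg3 ε hε => by
      obtain ⟨Λ0, hg1⟩ := hg1
      obtain ⟨Λ, W, hΛ, hLW, hWf⟩ := hAPX K ι n (UU c G) (fun P => g (Ψ P)) S hUs hU0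
        (fun P _ => hg2 _) (fun P _ => hg3 _)
        (fun a ha P hP => by
          show g (Ψ _) = g (Ψ P)
          rw [hΨ.smul a ha P (hZ P hP)])
        (fun ε' hε' => by
          obtain ⟨δ, hδ, h1⟩ := hΨ.cont (ε' / (|Λ0| + 1)) (by positivity)
          refine ⟨δ, hδ, fun P Q hP hQ h2 h3 => ?_⟩
          have h4 := h1 P Q (hZ P hP) (hZ Q hQ) h2 h3
          have h5 := hg1 (Ψ P) (Ψ Q)
          calc |g (Ψ P) - g (Ψ Q)| ≤ Λ0 * |Ψ P - Ψ Q| := h5
            _ ≤ |Λ0| * |Ψ P - Ψ Q| := mul_le_mul_of_nonneg_right (le_abs_self _) (abs_nonneg _)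
            _ ≤ |Λ0| * (ε' / (|Λ0| + 1)) := mul_le_mul_of_nonneg_left h4 (abs_nonneg _)
            _ ≤ (|Λ0| + 1) * (ε' / (|Λ0| + 1)) := mul_le_mul_of_nonneg_right (by linarith)
                (by positivity)
            _ = ε' := by field_simp) ε hε
      obtain ⟨c6, hc6⟩ := hW S Λ hΛ W hLW
      refine ⟨fun y => W fun i => (y.1 i).rep, c6, fun y => hWf _ y.2, ?_⟩
      refine hc6.congr fun B => ?_
      congr 1
      exact (finsum_subtype' (fun x : Pts K n => UU c G fun i => (x i).rep)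
        {x | ∏ i, (x i).mulHeight ^ (n i + 1 - k) ≤ B} fun x => W fun i => (x i).rep).symm)
    ⟨c4, hc4, by
      refine hlim4.congr fun B => ?_
      congr 2
      exact (ncard_subtype' (fun x : Pts K n => UU c G fun i => (x i).rep)
        {x | ∏ i, (x i).mulHeight ^ (n i + 1 - k) ≤ B}).symm⟩
  refine ⟨c5, hc5, hlim5.congr fun B => ?_⟩
  congr 2
  have h7 := ncard_subtype' (fun x : Pts K n => UU c G fun i => (x i).rep)
    {x | (∏ i, (x i).mulHeight ^ (n i + 1 - k)) * Ψ (fun i => (x i).rep) ≤ B}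
  simp only [in_iff]
  exact h7

end Pool.Agent.Q35.EOW
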