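import Mathlib
import Pool.Agent.Q35.EOW.Stm

/-!
Project EOW, last part: continuous functions on `X(K_v)` are bounded and uniformly continuous on the
rational points (compactness).
-/

set_option autoImplicit false

namespace Pool.Agent.Q35.EOW

open Finset Function NumberField IsDedekindDomain
open Pool.Agent.Q35.SM (Cof Vs ev)

/-- The vectors over `L` in the cone over `X`. -/
def Cone {K : Type} [Field K] {ι : Type} [Fintype ι] [DecidableEq ι] {n : ι → ℕ} {k : ℕ}
    (c : Fin k → Cof K n) (L : Type) [Field L] [Algebra K L] (x : Vs L n) : Prop :=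
  (∀ i, x i ≠ 0) ∧ ∀ t, ev L (c t) x = 0

/-- A continuous positive function on `X(L)`. -/
structure ContF {K : Type} [Field K] {ι : Type} [Fintype ι] [DecidableEq ι] {n : ι → ℕ}
    {k : ℕ} (c : Fin k → Cof K n) (L : Type) [NormedField L] [Algebra K L] (ψ : Vs L n → ℝ) : Prop where
  pos : ∀ x, Cone c L x → 0 < ψ x
  cont : ContinuousOn ψ {x | Cone c L x}
  smul : ∀ a : ι → L, (∀ i, a i ≠ 0) → ∀ x, Cone c L x → ψ (fun i => a i • x i) = ψ x

/-- EOW-10 (CP1): the completions are locally compact. -/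
def S_CP1 : Prop :=
  ∀ (K : Type) [Field K] [NumberField K],
    (∀ w : InfinitePlace K, ProperSpace w.Completion) ∧
    ∀ v : HeightOneSpectrum (𝓞 K), ProperSpace (v.adicCompletion K)

/-- EOW-11 (CP2): bounds and uniform continuity. -/
def S_CP2 : Prop :=
  ∀ (K : Type) [Field K] (ι : Type) [Fintype ι] [DecidableEq ι] (n : ι → ℕ) (k : ℕ)
    (c : Fin k → Cof K n) (L : Type) [NormedField L] [Algebra K L] [ProperSpace L] (ψ : Vs L n → ℝ), ContF c L ψ →
    (∃ m M : ℝ, 0 < m ∧ ∀ x, Cone c L x → m ≤ ψ x ∧ ψ x ≤ M) ∧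
    ∀ ε : ℝ, 0 < ε → ∃ δ : ℝ, 0 < δ ∧ ∀ x y, Cone c L x → Cone c L y →
      (∀ i, ‖x i - y i‖ ≤ δ * ‖x i‖) → |ψ x - ψ y| ≤ ε

end Pool.Agent.Q35.EOW
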