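import Mathlib
import Pool.Agent.Q35.EOW.Stm2
import Pool.Agent.Q35.EOW.Fin

set_option autoImplicit false

namespace Pool.Agent.Q35.EOW

open Finset Function NumberField IsDedekindDomain
open Pool.Agent.Q35.MM (Pts)
open Pool.Agent.Q35.SM (Cof Vs ev)

section

variable {K : Type} [Field K] [NumberField K] {ι : Type} [Fintype ι] [DecidableEq ι] {n : ι → ℕ}
  {Z : Vs K n → Prop} {S : Finset (FinitePlace K)}

theorem Fac.one : Fac Z S (fun _ => (1 : ℝ)) where
  bounds := ⟨1, 1, one_pos, fun _ _ => ⟨le_rfl, le_rfl⟩⟩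
  smul := fun _ _ _ _ => rfl
  cont := fun ε hε => ⟨1, one_pos, fun P Q _ _ _ _ => by simpa using hε.le⟩

theorem Fac.mul {Ψ Φ : Vs K n → ℝ} (h1 : Fac Z S Ψ) (h2 : Fac Z S Φ) :
    Fac Z S fun P => Ψ P * Φ P := by
  obtain ⟨m1, M1, hm1, hb1⟩ := h1.bounds
  obtain ⟨m2, M2, hm2, hb2⟩ := h2.bounds
  refine ⟨⟨m1 * m2, M1 * M2, by positivity, fun P hP => ?_⟩, fun a ha P hP => ?_, ?_⟩
  · obtain ⟨a1, a2⟩ := hb1 P hP
    obtain ⟨a3, a4⟩ := hb2 P hP
    exact ⟨mul_le_mul a1 a3 hm2.le (hm1.le.trans a1),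
      mul_le_mul a2 a4 (hm2.le.trans a3) ((hm1.le.trans a1).trans a2)⟩
  · show Ψ _ * Φ _ = Ψ P * Φ P
    rw [h1.smul a ha P hP, h2.smul a ha P hP]
  · intro ε hε
    set N : ℝ := |M1| + |M2| + 1 with hN
    have hN0 : 0 < N := by positivity
    obtain ⟨δ1, hδ1, hc1⟩ := h1.cont (ε / (2 * N)) (by positivity)
    obtain ⟨δ2, hδ2, hc2⟩ := h2.cont (ε / (2 * N)) (by positivity)
    refine ⟨min δ1 δ2, lt_min hδ1 hδ2, fun P Q hP hQ h3 h4 => ?_⟩
    have hnv : ∀ (v : K → ℝ), (∀ x, 0 ≤ v x) → ∀ {m : ℕ} (x : Fin m → K), 0 ≤ nv v x := by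
      intro v hv m x
      exact Real.iSup_nonneg fun a => hv _
    have e1 := hc1 P Q hP hQ
      (fun i v => (h3 i v).trans (mul_le_mul_of_nonneg_right (min_le_left _ _)
        (hnv _ (fun x => apply_nonneg v x) _)))
      (fun i v hv => (h4 i v hv).trans (mul_le_mul_of_nonneg_right (min_le_left _ _)
        (hnv _ (fun x => apply_nonneg v x) _)))
    have e2 := hc2 P Q hP hQ
      (fun i v => (h3 i v).trans (mul_le_mul_of_nonneg_right (min_le_right _ _)
        (hnv _ (fun x => apply_nonneg v x) _)))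
      (fun i v hv => (h4 i v hv).trans (mul_le_mul_of_nonneg_right (min_le_right _ _)
        (hnv _ (fun x => apply_nonneg v x) _)))
    obtain ⟨a1, a2⟩ := hb1 P hP
    obtain ⟨a3, a4⟩ := hb2 Q hQ
    have e3 : |Ψ P| ≤ N := by
      rw [abs_of_nonneg (hm1.le.trans a1)]
      have := le_abs_self M1
      have := abs_nonneg M2
      linarith
    have e4 : |Φ Q| ≤ N := by
      rw [abs_of_nonneg (hm2.le.trans a3)]
      have := le_abs_self M2
      have := abs_nonneg M1
      linarith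
    have e5 : Ψ P * Φ P - Ψ Q * Φ Q = Ψ P * (Φ P - Φ Q) + (Ψ P - Ψ Q) * Φ Q := by ring
    calc |Ψ P * Φ P - Ψ Q * Φ Q| ≤ |Ψ P| * |Φ P - Φ Q| + |Ψ P - Ψ Q| * |Φ Q| := by
          rw [e5]
          refine (abs_add_le _ _).trans ?_
          rw [abs_mul, abs_mul]
      _ ≤ N * (ε / (2 * N)) + (ε / (2 * N)) * N := by
          refine add_le_add (mul_le_mul e3 e2 (abs_nonneg _) hN0.le)
            (mul_le_mul e1 e4 (abs_nonneg _) (by positivity))
      _ = ε := by
          field_simp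
          ring

theorem Fac.prod {J : Type} (s : Finset J) (f : J → Vs K n → ℝ) (h : ∀ j ∈ s, Fac Z S (f j)) :
    Fac Z S fun P => ∏ j ∈ s, f j P := by
  classical
  induction s using Finset.induction_on with
  | empty => simpa using Fac.one
  | insert j s hj ih =>
    have h1 := (h j (mem_insert_self j s)).mul (ih fun i hi => h i (mem_insert_of_mem hi))
    simpa only [Finset.prod_insert hj] using h1

theorem nv_eq {L : Type} [NormedField L] (σ : K →+* L) (v : K → ℝ) (hv : ∀ a, ‖σ a‖ = v a)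
    {m : ℕ} (x : Fin m → K) : nv v x = ‖(fun a => σ (x a) : Fin m → L)‖ := by
  unfold nv
  rcases Nat.eq_zero_or_pos m with rfl | hm
  · rw [Real.iSup_of_isEmpty]
    symm
    rw [norm_eq_zero]
    exact Subsingleton.elim _ _
  · have : Nonempty (Fin m) := ⟨⟨0, hm⟩⟩
    apply le_antisymm
    · refine ciSup_le fun a => ?_
      rw [← hv]
      exact norm_le_pi_norm (fun a => σ (x a) : Fin m → L) a
    · rw [pi_norm_le_iff_of_nonneg (Real.iSup_nonneg fun a => by rw [← hv]; positivity)]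
      intro a
      rw [hv]
      exact le_ciSup (f := fun a => v (x a)) (Set.finite_range _).bddAbove a

theorem fac_of (hCP2 : S_CP2) {k : ℕ} (c : Fin k → Cof K n) (L : Type) [NormedField L]
    [Algebra K L] [ProperSpace L] (ψ : Vs L n → ℝ) (hψ : ContF c L ψ)
    (hv : (∃ v : InfinitePlace K, ∀ a, ‖algebraMap K L a‖ = v a) ∨
      ∃ v ∈ S, ∀ a, ‖algebraMap K L a‖ = v a) :
    Fac (Cone c K) S fun P => ψ fun i a => algebraMap K L (P i a) := by
  obtain ⟨⟨m, M, hm, hb⟩, hc⟩ := hCP2 K ι n k c L ψ hψ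
  have hcone : ∀ P, Cone c K P → Cone c L fun i a => algebraMap K L (P i a) := by
    rintro P ⟨h1, h2⟩
    refine ⟨fun i hi => h1 i ?_, fun t => ?_⟩
    · funext a
      have := congrFun hi a
      simpa using this
    · have h3 := congrArg (algebraMap K L) (h2 t)
      unfold ev at h3 ⊢
      rw [map_sum, map_zero] at h3
      simpa only [map_mul, map_prod, Algebra.algebraMap_self, RingHom.id_apply] using h3
  refine ⟨⟨m, M, hm, fun P hP => hb _ (hcone P hP)⟩, fun a ha P hP => ?_, fun ε hε => ?_⟩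
  · have h1 := hψ.smul (fun i => algebraMap K L (a i)) (fun i => by
      rw [Ne, map_eq_zero]
      exact ha i) _ (hcone P hP)
    rw [← h1]
    congr 1
    funext i b
    simp [Pi.smul_apply]
  · obtain ⟨δ, hδ, h1⟩ := hc ε hε
    refine ⟨δ, hδ, fun P Q hP hQ h2 h3 => h1 _ _ (hcone P hP) (hcone Q hQ) fun i => ?_⟩
    have e1 : ((fun a => algebraMap K L (P i a)) - fun a => algebraMap K L (Q i a) :
        Fin (n i + 1) → L) = fun a => algebraMap K L ((P i - Q i) a) := by
      funext a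
      simp
    rw [e1]
    rcases hv with ⟨v, hv⟩ | ⟨v, hvS, hv⟩
    · rw [← nv_eq (algebraMap K L) v hv, ← nv_eq (algebraMap K L) v hv]
      exact h2 i v
    · rw [← nv_eq (algebraMap K L) v hv, ← nv_eq (algebraMap K L) v hv]
      exact h3 i v hvS

/-- The product of continuous functions for the infinite places and the primes in `T`. -/
theorem fac_adelic (hCP1 : S_CP1) (hCP2 : S_CP2) {k : ℕ} (c : Fin k → Cof K n)
    (T : Finset (HeightOneSpectrum (𝓞 K))) (ψ : ∀ w : InfinitePlace K, Vs w.Completion n → ℝ)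
    (φ : ∀ v : HeightOneSpectrum (𝓞 K), Vs (v.adicCompletion K) n → ℝ)
    (hψ : ∀ w, ContF c w.Completion (ψ w)) (hφ : ∀ v ∈ T, ContF c (v.adicCompletion K) (φ v)) :
    ∃ S : Finset (FinitePlace K), Fac (Cone c K) S fun P =>
      (∏ w, ψ w fun i a => algebraMap K w.Completion (P i a)) *
        ∏ v ∈ T, φ v fun i a => algebraMap K (v.adicCompletion K) (P i a) := by
  classical
  refine ⟨T.image FinitePlace.mk, Fac.mul (Fac.prod _ _ fun w _ => ?_)
    (Fac.prod _ _ fun v hv => ?_)⟩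
  · haveI := (hCP1 K).1 w
    refine fac_of hCP2 c w.Completion (ψ w) (hψ w) (Or.inl ⟨w, fun a => ?_⟩)
    exact InfinitePlace.Completion.norm_coe w _
  · haveI := (hCP1 K).2 v
    refine fac_of hCP2 c (v.adicCompletion K) (φ v) (hφ v hv)
      (Or.inr ⟨FinitePlace.mk v, mem_image_of_mem _ hv, fun a => ?_⟩)
    rw [FinitePlace.mk_apply]
    rfl

end

end Pool.Agent.Q35.EOW
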