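import Mathlib
import Pool.Agent.Q35.EOW.Fac

set_option autoImplicit false

namespace Pool.Agent.Q35.EOW

open Finset Function MvPolynomial NumberField IsDedekindDomain
open Pool.Agent.Q35.MM (Pts)
open Pool.Agent.Q35.SM (Cof Vs Pol ev MH Smth)
open Pool.Agent.Q35.EO (S_GG S_TAU S_HYPR S_MOBK S_ST S_DE S_HT S_SUM2 In)

/-- The asymptotic formula for all adelic heights, with completions. -/
theorem final2 (hAD : Pool.Agent.Q35.MM.S_AD) (hT0 : Pool.Agent.Q35.SM.S_T)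
    (hD : Pool.Agent.Q35.SM.S_D) (hE : Pool.Agent.Q35.SM.S_E) (hF : Pool.Agent.Q35.SM.S_F)
    (hC : Pool.Agent.Q35.SM.S_C) (hLW : Pool.Agent.Q35.MM.S_LW) (hG0 : Pool.Agent.Q35.SM.S_G)
    (hST : S_ST) (hDE : S_DE) (hHT : S_HT) (hSC : Pool.Agent.Q35.LO.S_SC) (hSUM : S_SUM2)
    (hNO : Pool.Agent.Q35.LO.S_NO) (hGG : S_GG) (hTAU : S_TAU) (hHYPR : S_HYPR) (hMOBK : S_MOBK)
    (hSTW : S_STW) (hGGW : S_GGW) (hTAUW : S_TAUW) (hHYPRW : S_HYPRW) (hMOBKW : S_MOBKW)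
    (hPSI : S_PSI) (hAPX : S_APX) (hCP1 : S_CP1) (hCP2 : S_CP2)
    (K : Type) [Field K] [NumberField K] (ι : Type)
    [Fintype ι] [DecidableEq ι] (hι : 2 ≤ Fintype.card ι) (n : ι → ℕ) (k : ℕ) (hk : 1 ≤ k)
    (hn : ∀ i, k * Fintype.card ι * (Fintype.card ι - 1) + k ≤ n i + 1)
    (c : Fin k → Cof K n) (hc : Smth c) :
    ∃ A : Finset (Pol K n), (∀ g ∈ A, MH g) ∧ (∃ x : Pts K n, In c A x) ∧
      ∀ (T : Finset (HeightOneSpectrum (𝓞 K))) (ψ : ∀ w : InfinitePlace K, Vs w.Completion n → ℝ)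
        (φ : ∀ v : HeightOneSpectrum (𝓞 K), Vs (v.adicCompletion K) n → ℝ),
        (∀ w, ContF c w.Completion (ψ w)) → (∀ v ∈ T, ContF c (v.adicCompletion K) (φ v)) →
        ∃ c2 : ℝ, 0 < c2 ∧ Filter.Tendsto (fun B : ℝ =>
          (({x : Pts K n | In c A x ∧ (∏ i, (x i).mulHeight ^ (n i + 1 - k)) *
            ((∏ w, ψ w fun i a => algebraMap K w.Completion ((x i).rep a)) *
              ∏ v ∈ T, φ v fun i a => algebraMap K (v.adicCompletion K) ((x i).rep a)) ≤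
                B}.ncard : ℕ) : ℝ) /
            (B * Real.log B ^ (Fintype.card ι - 1))) Filter.atTop (nhds c2) := by
  obtain ⟨A, h1, h2, h3⟩ := final hAD hT0 hD hE hF hC hLW hG0 hST hDE hHT hSC hSUM hNO hGG hTAU
    hHYPR hMOBK hSTW hGGW hTAUW hHYPRW hMOBKW hPSI hAPX K ι hι n k hk hn c hc
  refine ⟨A, h1, h2, fun T ψ φ hψ hφ => ?_⟩
  obtain ⟨S, hS⟩ := fac_adelic hCP1 hCP2 c T ψ φ hψ hφ
  have h4 := h3 S _ hS
  beta_reduce at h4
  exact h4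

end Pool.Agent.Q35.EOW
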